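import Mathlib

namespace Pool.Agent.Results.MP_0479e2_co.OddTotalDomination

/-- `S` is a total dominating set of `G`: every vertex has a neighbour in `S`. -/
def IsTotalDominating {V : Type} (G : SimpleGraph V) (S : Finset V) : Prop :=
  ∀ v : V, ∃ u ∈ S, G.Adj v u

/-- The total domination number: the minimum size of a total dominating set. -/
noncomputable def totalDominationNumber {V : Type} (G : SimpleGraph V) : ℕ :=
  sInf {m | ∃ S : Finset V, IsTotalDominating G S ∧ S.card = m}

section core

variable {A B : Type} [Fintype A] [Fintype B] [DecidableEq A] [DecidableEq B]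

/-- number of members of `P` whose set contains `y` -/
def dg (M : A → Finset B) (P : Finset A) (y : B) : ℕ := (P.filter (fun x => y ∈ M x)).card

omit [Fintype A] [Fintype B] in
theorem dg_insert (M : A → Finset B) (P : Finset A) (x : A) (hx : x ∉ P) (y : B) :
    dg M (insert x P) y = dg M P y + if y ∈ M x then 1 else 0 := by
  unfold dg
  rw [Finset.filter_insert]
  split_ifs with h
  · rw [Finset.card_insert_of_notMem]
    simp [hx]
  · simp

/-- potential -/
def Psi (M : A → Finset B) (k l : ℕ) (P : Finset A) : ℤ :=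
  ∑ x ∈ P, (((M x).card : ℤ) - k) - ∑ y, ((min (dg M P y) l : ℕ) : ℤ)

omit [Fintype A] in
theorem Psi_step (M : A → Finset B) (k l : ℕ) (P : Finset A) (x : A) (hx : x ∉ P)
    (hL : k ≤ ((M x).filter (fun y => l ≤ dg M P y)).card) :
    Psi M k l P ≤ Psi M k l (insert x P) := by
  unfold Psi
  rw [Finset.sum_insert hx]
  have h1 : ∀ y, ((min (dg M (insert x P) y) l : ℕ) : ℤ) =
      ((min (dg M P y) l : ℕ) : ℤ) + if y ∈ (M x).filter (fun y => ¬ l ≤ dg M P y) then 1 else 0 := by
    intro y
    rw [dg_insert M P x hx y]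
    by_cases hy : y ∈ M x
    · by_cases hl : l ≤ dg M P y
      · simp [hy, hl]
        omega
      · simp [hy, hl]
        omega
    · simp [hy]
  rw [Finset.sum_congr rfl (fun y _ => h1 y), Finset.sum_add_distrib]
  have h2 : ∑ y : B, (if y ∈ (M x).filter (fun y => ¬ l ≤ dg M P y) then (1 : ℤ) else 0) =
      (((M x).filter (fun y => ¬ l ≤ dg M P y)).card : ℤ) := by
    rw [Finset.sum_ite_mem]
    simp
  rw [h2]
  have h3 := Finset.card_filter_add_card_filter_not (s := M x) (fun y => l ≤ dg M P y)
  have h4 : (((M x).filter (fun y => l ≤ dg M P y)).card : ℤ) +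
    (((M x).filter (fun y => ¬ l ≤ dg M P y)).card : ℤ) = ((M x).card : ℤ) := by exact_mod_cast h3
  have h5 : (k : ℤ) ≤ (((M x).filter (fun y => l ≤ dg M P y)).card : ℤ) := by exact_mod_cast hL
  linarith

/-- common members -/
def inter (M : A → Finset B) (X : Finset A) : Finset B :=
  Finset.univ.filter (fun y => ∀ x ∈ X, y ∈ M x)

theorem core (M : A → Finset B) (k l : ℕ) (hkl : l < k)
    (hK : ∀ X : Finset A, X.card ≤ k → ∃ y, ∀ x ∈ X, y ∈ M x)
    (hL : ∀ Y : Finset B, Y.card ≤ l → ∃ x, Y ⊆ M x)
    (hB : ∀ y, ∃ x, y ∉ M x)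
    (hA : ∀ x, ∃ y, y ∉ M x) :
    (k : ℤ) * Fintype.card A + l * Fintype.card B - l * (k + 1) ≤ ∑ x, ((M x).card : ℤ) := by
  choose f hf using hB
  choose g hg using hA
  -- intersections are large
  have hint : ∀ X : Finset A, k + 1 ≤ X.card + (inter M X).card := by
    intro X
    by_contra hlt
    push Not at hlt
    obtain ⟨y, hy⟩ := hK (X ∪ (inter M X).image f) (by
      have h1 := Finset.card_union_le X ((inter M X).image f)
      have h2 := Finset.card_image_le (s := inter M X) (f := f)
      omega)
    have hyI : y ∈ inter M X := by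
      simp only [inter, Finset.mem_filter, Finset.mem_univ, true_and]
      intro x hx
      exact hy x (Finset.mem_union_left _ hx)
    exact hf y (hy (f y) (Finset.mem_union_right _ (Finset.mem_image_of_mem f hyI)))
  -- degrees on the other side are large
  have hdeg : ∀ y, l ≤ dg M Finset.univ y := by
    intro y
    by_contra hlt
    push Not at hlt
    unfold dg at hlt
    obtain ⟨x, hx⟩ := hL (insert y ((Finset.univ.filter (fun x => y ∈ M x)).image g)) (by
      have h1 := Finset.card_insert_le y ((Finset.univ.filter (fun x => y ∈ M x)).image g)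
      have h2 := Finset.card_image_le (s := Finset.univ.filter (fun x => y ∈ M x)) (f := g)
      omega)
    have hyx : y ∈ M x := hx (Finset.mem_insert_self _ _)
    apply hg x
    apply hx
    apply Finset.mem_insert_of_mem
    apply Finset.mem_image_of_mem
    simp [hyx]
  -- a subfamily with empty common part is large
  have hcardA : ∀ P : Finset A, inter M P = ∅ → k + 1 ≤ P.card := by
    intro P hP
    have := hint P
    rw [hP, Finset.card_empty] at this
    omega
  have hunivI : inter M Finset.univ = ∅ := by
    rw [Finset.eq_empty_iff_forall_notMem]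
    intro y hy
    simp only [inter, Finset.mem_filter, Finset.mem_univ, true_and] at hy
    exact hf y (hy (f y) trivial)
  have hA1 := hcardA _ hunivI
  -- choose the initial family
  obtain ⟨X0, hX0, hmin⟩ := Finset.exists_min_image (Finset.powersetCard (l + 1) Finset.univ)
    (fun X : Finset A => (inter M X).card) (by
      rw [Finset.powersetCard_nonempty]; omega)
  rw [Finset.mem_powersetCard] at hX0
  obtain ⟨-, hX0c⟩ := hX0
  set c := (inter M X0).card with hc
  have hc1 : k ≤ l + c := by
    have := hint X0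
    omega
  have hdgX0 : ∀ y, dg M X0 y ≤ l + 1 := by
    intro y
    rw [← hX0c]
    exact Finset.card_filter_le _ _
  have hfull : ∀ y, dg M X0 y = l + 1 ↔ y ∈ inter M X0 := by
    intro y
    unfold dg
    rw [← hX0c, Finset.card_filter_eq_iff]
    simp [inter]
  -- initial value
  have hinit : -((l : ℤ) * (k + 1)) ≤ Psi M k l X0 := by
    unfold Psi
    rw [Finset.sum_sub_distrib]
    have h1 : ∑ x ∈ X0, ((M x).card : ℤ) = ∑ y, (dg M X0 y : ℤ) := by
      have : ∑ x ∈ X0, (M x).card = ∑ y, dg M X0 y := by
        unfold dg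
        simp only [Finset.card_eq_sum_ones, Finset.sum_filter]
        rw [Finset.sum_comm]
        apply Finset.sum_congr rfl
        intro x _
        rw [Finset.sum_ite_mem]
        simp
      exact_mod_cast this
    rw [h1]
    have h2 : ∑ y, (dg M X0 y : ℤ) = ∑ y, ((min (dg M X0 y) l : ℕ) : ℤ) + c := by
      have : ∀ y, (dg M X0 y : ℤ) = ((min (dg M X0 y) l : ℕ) : ℤ) +
          if y ∈ inter M X0 then 1 else 0 := by
        intro y
        have h3 := hdgX0 y
        by_cases hy : y ∈ inter M X0
        · have := (hfull y).2 hy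
          rw [if_pos hy]
          omega
        · have h4 : dg M X0 y ≠ l + 1 := fun h => hy ((hfull y).1 h)
          rw [if_neg hy]
          omega
      rw [Finset.sum_congr rfl (fun y _ => this y), Finset.sum_add_distrib]
      congr 1
      rw [Finset.sum_ite_mem]
      simp [hc]
    rw [h2]
    simp only [Finset.sum_const, hX0c, nsmul_eq_mul]
    push_cast
    have : (k : ℤ) ≤ l + c := by exact_mod_cast hc1
    nlinarith
  -- a set missing a common element
  have hcase1 : ∀ (P : Finset A) (x : A), X0 ⊆ P → x ∉ P → ¬ inter M X0 ⊆ M x →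
      k ≤ ((M x).filter (fun y => l ≤ dg M P y)).card := by
    intro P x hXP hxP hnot
    have hxX : x ∉ X0 := fun h => hxP (hXP h)
    have hmono : ((M x).filter (fun y => l ≤ dg M X0 y)).card ≤
        ((M x).filter (fun y => l ≤ dg M P y)).card := by
      apply Finset.card_le_card
      intro y hy
      rw [Finset.mem_filter] at hy ⊢
      refine ⟨hy.1, hy.2.trans ?_⟩
      apply Finset.card_le_card
      exact Finset.filter_subset_filter _ hXP
    refine le_trans ?_ hmono
    -- double counting
    have hQ : ∀ t ∈ X0, c ≤ ((M x).filter (fun y => ∀ j ∈ X0.erase t, y ∈ M j)).card := by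
      intro t ht
      have hnm : x ∉ X0.erase t := fun h => hxX (Finset.mem_of_mem_erase h)
      have hm := hmin (insert x (X0.erase t)) (by
        rw [Finset.mem_powersetCard]
        refine ⟨Finset.subset_univ _, ?_⟩
        rw [Finset.card_insert_of_notMem hnm, Finset.card_erase_of_mem ht, hX0c]
        rfl)
      refine hm.trans (Finset.card_le_card ?_)
      intro y hy
      simp only [inter, Finset.mem_filter, Finset.mem_univ, true_and] at hy
      rw [Finset.mem_filter]
      exact ⟨hy x (Finset.mem_insert_self _ _),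
        fun j hj => hy j (Finset.mem_insert_of_mem hj)⟩
    have hsum : (l + 1) * c ≤
        ∑ t ∈ X0, ((M x).filter (fun y => ∀ j ∈ X0.erase t, y ∈ M j)).card := by
      have := Finset.card_nsmul_le_sum X0 _ c hQ
      rwa [hX0c, smul_eq_mul] at this
    have hsw : ∑ t ∈ X0, ((M x).filter (fun y => ∀ j ∈ X0.erase t, y ∈ M j)).card =
        ∑ y ∈ M x, (X0.filter (fun t => ∀ j ∈ X0.erase t, y ∈ M j)).card := by
      simp only [Finset.card_filter]
      rw [Finset.sum_comm]
    have hbound : ∀ y ∈ M x, (X0.filter (fun t => ∀ j ∈ X0.erase t, y ∈ M j)).card ≤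
        (if l ≤ dg M X0 y then 1 else 0) + (if y ∈ inter M X0 then l else 0) := by
      intro y _
      by_cases hy : y ∈ inter M X0
      · have h1 := (hfull y).2 hy
        rw [if_pos hy, if_pos (by omega)]
        have := Finset.card_filter_le X0 (fun t => ∀ j ∈ X0.erase t, y ∈ M j)
        omega
      · rw [if_neg hy, add_zero]
        have hex : ∃ j0 ∈ X0, y ∉ M j0 := by
          by_contra hcon
          push Not at hcon
          apply hy
          simp only [inter, Finset.mem_filter, Finset.mem_univ, true_and]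
          exact hcon
        obtain ⟨j0, hj0, hyj0⟩ := hex
        have hsub : X0.filter (fun t => ∀ j ∈ X0.erase t, y ∈ M j) ⊆ {j0} := by
          intro t ht
          rw [Finset.mem_filter] at ht
          rw [Finset.mem_singleton]
          by_contra hne
          exact hyj0 (ht.2 j0 (Finset.mem_erase.2 ⟨fun h => hne h.symm, hj0⟩))
        by_cases hl : l ≤ dg M X0 y
        · rw [if_pos hl]
          exact (Finset.card_le_card hsub).trans (by simp)
        · rw [if_neg hl, Nat.le_zero, Finset.card_eq_zero, Finset.eq_empty_iff_forall_notMem]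
          intro t ht
          have htj : t = j0 := by simpa using hsub ht
          rw [Finset.mem_filter] at ht
          apply hl
          have h5 : X0.erase t ⊆ X0.filter (fun x => y ∈ M x) := by
            intro j hj
            rw [Finset.mem_filter]
            exact ⟨Finset.mem_of_mem_erase hj, ht.2 j hj⟩
          have h6 := Finset.card_le_card h5
          rw [Finset.card_erase_of_mem ht.1, hX0c] at h6
          simpa [dg] using h6
    have hsum2 := Finset.sum_le_sum hbound
    rw [Finset.sum_add_distrib] at hsum2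
    have e1 : ∑ y ∈ M x, (if l ≤ dg M X0 y then 1 else 0) =
        ((M x).filter (fun y => l ≤ dg M X0 y)).card := by
      rw [Finset.card_filter]
    have e2 : ∑ y ∈ M x, (if y ∈ inter M X0 then l else 0) =
        (M x ∩ inter M X0).card * l := by
      rw [Finset.sum_ite_mem, Finset.sum_const, smul_eq_mul]
    have e3 : (M x ∩ inter M X0).card + 1 ≤ c := by
      rw [hc]
      apply Finset.card_lt_card
      refine ⟨Finset.inter_subset_right, fun h => hnot (h.trans Finset.inter_subset_left)⟩
    rw [e1, e2] at hsum2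
    rw [hsw] at hsum
    have h9 := hsum.trans hsum2
    have h10 : (M x ∩ inter M X0).card * l ≤ (c - 1) * l := Nat.mul_le_mul_right l (by omega)
    have h11 : (l + 1) * c = c + (c - 1) * l + l := by
      obtain ⟨c', hc'⟩ : ∃ c', c = c' + 1 := ⟨c - 1, by omega⟩
      rw [hc']
      simp
      ring
    omega
  -- a set over a family with empty common part
  have hcase2 : ∀ (P : Finset A) (x : A), inter M P = ∅ → x ∉ P →
      k ≤ ((M x).filter (fun y => l ≤ dg M P y)).card := by
    intro P x hP hxP
    by_contra hlt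
    push Not at hlt
    have hkill : ∀ y, ∃ p ∈ P, y ∉ M p := by
      intro y
      by_contra hcon
      push Not at hcon
      have : y ∈ inter M P := by
        simp only [inter, Finset.mem_filter, Finset.mem_univ, true_and]
        exact hcon
      rw [hP] at this
      simp at this
    choose p hpP hp using hkill
    have hPc := hcardA P hP
    set K := ((M x).filter (fun y => l ≤ dg M P y)).image p with hKdef
    have hKc : K.card ≤ k - 1 := by
      have h1 := Finset.card_image_le (s := (M x).filter (fun y => l ≤ dg M P y)) (f := p)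
      rw [← hKdef] at h1
      omega
    have hKP : K ⊆ P := by
      intro z hz
      rw [hKdef, Finset.mem_image] at hz
      obtain ⟨y, _, rfl⟩ := hz
      exact hpP y
    obtain ⟨K', hKK', hK'P, hK'c⟩ := Finset.exists_subsuperset_card_eq hKP hKc (by omega)
    obtain ⟨y, hy⟩ := hK (insert x K') (by
      have := Finset.card_insert_le x K'
      omega)
    have hyx : y ∈ M x := hy x (Finset.mem_insert_self _ _)
    by_cases hl : l ≤ dg M P y
    · have hpy : p y ∈ K := by
        rw [hKdef]
        apply Finset.mem_image_of_mem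
        rw [Finset.mem_filter]
        exact ⟨hyx, hl⟩
      exact hp y (hy (p y) (Finset.mem_insert_of_mem (hKK' hpy)))
    · have h1 : K' ⊆ P.filter (fun x => y ∈ M x) := by
        intro z hz
        rw [Finset.mem_filter]
        exact ⟨hK'P hz, hy z (Finset.mem_insert_of_mem hz)⟩
      have h2 := Finset.card_le_card h1
      unfold dg at hl
      omega
  -- first phase
  have hph1 : ∀ R : Finset A, (∀ x ∈ R, x ∉ X0 ∧ ¬ inter M X0 ⊆ M x) →
      Psi M k l X0 ≤ Psi M k l (X0 ∪ R) := by
    intro R
    induction R using Finset.induction_on with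
    | empty => intro _; simp
    | insert r R hr ih =>
      intro hR
      have h1 := ih (fun x hx => hR x (Finset.mem_insert_of_mem hx))
      have h2 := hR r (Finset.mem_insert_self _ _)
      refine h1.trans ?_
      rw [Finset.union_insert]
      have hnm : r ∉ X0 ∪ R := by
        rw [Finset.mem_union]
        rintro (h | h)
        · exact h2.1 h
        · exact hr h
      exact Psi_step M k l _ r hnm (hcase1 _ r Finset.subset_union_left hnm h2.2)
  set P1 := X0 ∪ Finset.univ.filter (fun x => x ∉ X0 ∧ ¬ inter M X0 ⊆ M x) with hP1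
  have hP1I : inter M P1 = ∅ := by
    rw [Finset.eq_empty_iff_forall_notMem]
    intro y hy
    simp only [inter, Finset.mem_filter, Finset.mem_univ, true_and] at hy
    have hyX : y ∈ inter M X0 := by
      simp only [inter, Finset.mem_filter, Finset.mem_univ, true_and]
      intro x hx
      exact hy x (Finset.mem_union_left _ hx)
    have hfy : f y ∉ X0 := fun h => hf y (hy _ (Finset.mem_union_left _ h))
    apply hf y
    apply hy
    rw [hP1, Finset.mem_union]
    right
    rw [Finset.mem_filter]
    exact ⟨Finset.mem_univ _, hfy, fun h => hf y (h hyX)⟩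
  have hph2 : ∀ R : Finset A, (∀ x ∈ R, x ∉ P1) → Psi M k l P1 ≤ Psi M k l (P1 ∪ R) := by
    intro R
    induction R using Finset.induction_on with
    | empty => intro _; simp
    | insert r R hr ih =>
      intro hR
      have h1 := ih (fun x hx => hR x (Finset.mem_insert_of_mem hx))
      have h2 := hR r (Finset.mem_insert_self _ _)
      refine h1.trans ?_
      rw [Finset.union_insert]
      have hnm : r ∉ P1 ∪ R := by
        rw [Finset.mem_union]
        rintro (h | h)
        · exact h2 h
        · exact hr h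
      apply Psi_step M k l _ r hnm (hcase2 _ r _ hnm)
      rw [Finset.eq_empty_iff_forall_notMem] at hP1I ⊢
      intro y hy
      apply hP1I y
      simp only [inter, Finset.mem_filter, Finset.mem_univ, true_and] at hy ⊢
      intro x hx
      exact hy x (Finset.mem_union_left _ hx)
  have hA2 := hph2 (Finset.univ \ P1) (by
    intro x hx
    exact (Finset.mem_sdiff.1 hx).2)
  rw [Finset.union_sdiff_of_subset (Finset.subset_univ _)] at hA2
  have hA3 := hph1 (Finset.univ.filter (fun x => x ∉ X0 ∧ ¬ inter M X0 ⊆ M x)) (by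
    intro x hx
    exact (Finset.mem_filter.1 hx).2)
  rw [← hP1] at hA3
  have hfin := (hinit.trans hA3).trans hA2
  unfold Psi at hfin
  rw [Finset.sum_sub_distrib] at hfin
  have h1 : ∑ y, ((min (dg M Finset.univ y) l : ℕ) : ℤ) = Fintype.card B * l := by
    rw [Finset.sum_congr rfl (fun y _ => by rw [min_eq_right (hdeg y)])]
    simp
  rw [h1] at hfin
  simp only [Finset.sum_const, Finset.card_univ, nsmul_eq_mul] at hfin
  linarith

end core

section graph

variable {V : Type} [Fintype V] [DecidableEq V] (G : SimpleGraph V) [DecidableRel G.Adj]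

/-- one-sided edge bound -/
theorem edge_bound (s t : Finset V) (hst : G.IsBipartiteWith (s : Set V) (t : Set V))
    (hiso : ∀ v : V, ∃ w, G.Adj v w)
    (k l : ℕ) (hkl : l < k)
    (hK : ∀ X : Finset V, X ⊆ s → X.card ≤ k → ∃ y ∈ t, ∀ x ∈ X, ¬ G.Adj x y)
    (hL : ∀ Y : Finset V, Y ⊆ t → Y.card ≤ l → ∃ x ∈ s, ∀ y ∈ Y, ¬ G.Adj x y) :
    (G.edgeFinset.card : ℤ) ≤ ((s.card : ℤ) - l) * ((t.card : ℤ) - k) + l := by
  have hnb : ∀ x ∈ s, ∀ y, G.Adj x y → y ∈ t := by
    intro x hx y hxy
    rcases hst.mem_of_adj hxy with h | h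
    · exact h.2
    · exact absurd h.1 (Set.disjoint_left.1 hst.disjoint hx)
  have hnb' : ∀ y ∈ t, ∀ x, G.Adj y x → x ∈ s := by
    intro y hy x hxy
    rcases hst.mem_of_adj hxy with h | h
    · exact absurd hy (Set.disjoint_left.1 hst.disjoint h.1)
    · exact h.2
  let M : s → Finset t := fun x => Finset.univ.filter (fun y => ¬ G.Adj x y)
  have hmem : ∀ (x : s) (y : t), y ∈ M x ↔ ¬ G.Adj x y := by
    intro x y; simp [M]
  have hcore := core M k l hkl (by
      intro X hX
      obtain ⟨y, hy, hXy⟩ := hK (X.map (Function.Embedding.subtype _)) (by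
        intro z hz
        rw [Finset.mem_map] at hz
        obtain ⟨w, _, rfl⟩ := hz
        exact w.2) (by rw [Finset.card_map]; exact hX)
      refine ⟨⟨y, hy⟩, fun x hx => ?_⟩
      rw [hmem]
      exact hXy x (Finset.mem_map_of_mem (Function.Embedding.subtype _) hx)) (by
      intro Y hY
      obtain ⟨x, hx, hYx⟩ := hL (Y.map (Function.Embedding.subtype _)) (by
        intro z hz
        rw [Finset.mem_map] at hz
        obtain ⟨w, _, rfl⟩ := hz
        exact w.2) (by rw [Finset.card_map]; exact hY)
      refine ⟨⟨x, hx⟩, fun y hy => ?_⟩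
      rw [hmem]
      exact hYx y (Finset.mem_map_of_mem (Function.Embedding.subtype _) hy)) (by
      intro y
      obtain ⟨x, hx⟩ := hiso y
      refine ⟨⟨x, hnb' y y.2 x hx⟩, ?_⟩
      rw [hmem, not_not]
      exact hx.symm) (by
      intro x
      obtain ⟨y, hy⟩ := hiso x
      refine ⟨⟨y, hnb x x.2 y hy⟩, ?_⟩
      rw [hmem, not_not]
      exact hy)
  have hdeg : ∀ x : s, ((M x).card : ℤ) = (t.card : ℤ) - G.degree x := by
    intro x
    have h1 : (M x).card + G.degree x = t.card := by
      have h2 : (M x).card = (t.filter (fun y => ¬ G.Adj x y)).card := by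
        rw [← Finset.card_map (Function.Embedding.subtype _)]
        congr 1
        ext z
        simp only [Finset.mem_map, Function.Embedding.subtype_apply, Finset.mem_filter]
        constructor
        · rintro ⟨w, hw, rfl⟩
          exact ⟨w.2, (hmem x w).1 hw⟩
        · rintro ⟨hz, hz2⟩
          exact ⟨⟨z, hz⟩, (hmem x _).2 hz2, rfl⟩
      have h3 : G.degree x = (t.filter (fun y => G.Adj x y)).card := by
        unfold SimpleGraph.degree
        congr 1
        ext z
        rw [SimpleGraph.mem_neighborFinset, Finset.mem_filter]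
        exact ⟨fun h => ⟨hnb x x.2 z h, h⟩, fun h => h.2⟩
      rw [h2, h3, add_comm]
      exact Finset.card_filter_add_card_filter_not _
    have : ((M x).card : ℤ) + G.degree x = t.card := by exact_mod_cast h1
    linarith
  rw [Finset.sum_congr rfl (fun x _ => hdeg x), Finset.sum_sub_distrib] at hcore
  have hsum : ∑ x : s, (G.degree x : ℤ) = G.edgeFinset.card := by
    rw [← SimpleGraph.isBipartiteWith_sum_degrees_eq_card_edges hst]
    push_cast
    rw [← Finset.sum_coe_sort s (fun x => (G.degree x : ℤ))]
  rw [hsum] at hcore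
  simp only [Finset.sum_const, Finset.card_univ, nsmul_eq_mul, Fintype.card_coe] at hcore
  linarith

end graph

/-- Upper bound for the number of edges of a bipartite graph without isolated vertices whose total
domination number is odd and at least three. -/
theorem result {V : Type} [Fintype V] [DecidableEq V] (G : SimpleGraph V) [DecidableRel G.Adj]
    (hbip : G.IsBipartite) (hiso : ∀ v : V, ∃ w, G.Adj v w)
    (hodd : Odd (totalDominationNumber G)) (h3 : 3 ≤ totalDominationNumber G) :
    (G.edgeFinset.card : ℤ) ≤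
      (((Fintype.card V : ℤ) - totalDominationNumber G) *
        ((Fintype.card V : ℤ) - totalDominationNumber G + 4)
        + 2 * totalDominationNumber G - 2) / 4 := by
  classical
  obtain ⟨s', t', hst'⟩ := hbip.exists_isBipartiteWith
  let s : Finset V := Finset.univ.filter (fun v => v ∈ s')
  let t : Finset V := Finset.univ.filter (fun v => v ∈ t')
  have hs : (s : Set V) = s' := by ext v; simp [s]
  have ht : (t : Set V) = t' := by ext v; simp [t]
  have hst : G.IsBipartiteWith (s : Set V) (t : Set V) := by rw [hs, ht]; exact hst'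
  have hcov : s ∪ t = Finset.univ := by
    ext v
    obtain ⟨w, hw⟩ := hiso v
    have := hst.mem_of_adj hw
    simp only [Finset.mem_union, Finset.mem_univ, iff_true]
    rcases this with h | h
    · left; exact h.1
    · right; exact h.1
  have hdisj : Disjoint s t := by
    rw [← Finset.disjoint_coe]; exact hst.disjoint
  have hcard : s.card + t.card = Fintype.card V := by
    rw [← Finset.card_union_of_disjoint hdisj, hcov, Finset.card_univ]
  have hnb : ∀ x ∈ s, ∀ y, G.Adj x y → y ∈ t := by
    intro x hx y hxy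
    rcases hst.mem_of_adj hxy with h | h
    · exact h.2
    · exact absurd h.1 (Set.disjoint_left.1 hst.disjoint hx)
  have hnb' : ∀ y ∈ t, ∀ x, G.Adj y x → x ∈ s := by
    intro y hy x hxy
    rcases hst.mem_of_adj hxy with h | h
    · exact absurd hy (Set.disjoint_left.1 hst.disjoint h.1)
    · exact h.2
  -- one-sided minima
  have hexA : ∃ m, ∃ X : Finset V, X ⊆ s ∧ (∀ y ∈ t, ∃ x ∈ X, G.Adj y x) ∧ X.card = m :=
    ⟨_, s, Finset.Subset.refl _, fun y hy => by
      obtain ⟨w, hw⟩ := hiso y
      exact ⟨w, hnb' y hy w hw, hw⟩, rfl⟩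
  have hexB : ∃ m, ∃ Y : Finset V, Y ⊆ t ∧ (∀ x ∈ s, ∃ y ∈ Y, G.Adj x y) ∧ Y.card = m :=
    ⟨_, t, Finset.Subset.refl _, fun y hy => by
      obtain ⟨w, hw⟩ := hiso y
      exact ⟨w, hnb y hy w hw, hw⟩, rfl⟩
  obtain ⟨X, hXs, hXd, hXc⟩ := Nat.find_spec hexA
  obtain ⟨Y, hYt, hYd, hYc⟩ := Nat.find_spec hexB
  have hXmin : ∀ Z : Finset V, Z ⊆ s → (∀ y ∈ t, ∃ x ∈ Z, G.Adj y x) → Nat.find hexA ≤ Z.card :=
    fun Z h1 h2 => Nat.find_min' hexA ⟨Z, h1, h2, rfl⟩
  have hYmin : ∀ Z : Finset V, Z ⊆ t → (∀ x ∈ s, ∃ y ∈ Z, G.Adj x y) → Nat.find hexB ≤ Z.card :=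
    fun Z h1 h2 => Nat.find_min' hexB ⟨Z, h1, h2, rfl⟩
  set α := Nat.find hexA with hα
  set β := Nat.find hexB with hβ
  -- the total domination number splits
  have htot : totalDominationNumber G = α + β := by
    have hmem : (α + β) ∈ {m | ∃ S : Finset V, IsTotalDominating G S ∧ S.card = m} := by
      refine ⟨X ∪ Y, ?_, ?_⟩
      · intro v
        have hv : v ∈ s ∪ t := by rw [hcov]; exact Finset.mem_univ _
        rcases Finset.mem_union.1 hv with hv | hv
        · obtain ⟨y, hy, hadj⟩ := hYd v hv
          exact ⟨y, Finset.mem_union_right _ hy, hadj⟩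
        · obtain ⟨x, hx, hadj⟩ := hXd v hv
          exact ⟨x, Finset.mem_union_left _ hx, hadj⟩
      · rw [Finset.card_union_of_disjoint, hXc, hYc]
        exact Finset.disjoint_of_subset_left hXs (Finset.disjoint_of_subset_right hYt hdisj)
    apply le_antisymm
    · exact Nat.sInf_le hmem
    · apply le_csInf ⟨_, hmem⟩
      rintro m ⟨S, hS, rfl⟩
      have h1 := hXmin (S ∩ s) Finset.inter_subset_right (by
        intro y hy
        obtain ⟨u, hu, hadj⟩ := hS y
        exact ⟨u, Finset.mem_inter.2 ⟨hu, hnb' y hy u hadj⟩, hadj⟩)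
      have h2 := hYmin (S ∩ t) Finset.inter_subset_right (by
        intro y hy
        obtain ⟨u, hu, hadj⟩ := hS y
        exact ⟨u, Finset.mem_inter.2 ⟨hu, hnb y hy u hadj⟩, hadj⟩)
      have h3 : (S ∩ s).card + (S ∩ t).card ≤ S.card := by
        rw [← Finset.card_union_of_disjoint]
        · apply Finset.card_le_card
          exact Finset.union_subset Finset.inter_subset_left Finset.inter_subset_left
        · exact Finset.disjoint_of_subset_left Finset.inter_subset_right
            (Finset.disjoint_of_subset_right Finset.inter_subset_right hdisj)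
      omega
  -- both minima are positive
  have hVne : Nonempty V := by
    by_contra hem
    rw [not_nonempty_iff] at hem
    have h1 : (0 : ℕ) ∈ {m | ∃ S : Finset V, IsTotalDominating G S ∧ S.card = m} :=
      ⟨∅, fun v => hem.elim v, rfl⟩
    have h2 : totalDominationNumber G ≤ 0 := Nat.sInf_le h1
    omega
  obtain ⟨v0⟩ := hVne
  obtain ⟨w0, hw0⟩ := hiso v0
  have hsne : ∃ x, x ∈ s ∧ ∃ y, y ∈ t := by
    rcases hst.mem_of_adj hw0 with h | h
    · exact ⟨v0, h.1, w0, h.2⟩
    · exact ⟨w0, h.2, v0, h.1⟩
  obtain ⟨x0, hx0, y0, hy0⟩ := hsne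
  have hα1 : 1 ≤ α := by
    rw [← hXc, Nat.one_le_iff_ne_zero, Finset.card_ne_zero]
    obtain ⟨x, hx, _⟩ := hXd y0 hy0
    exact ⟨x, hx⟩
  have hβ1 : 1 ≤ β := by
    rw [← hYc, Nat.one_le_iff_ne_zero, Finset.card_ne_zero]
    obtain ⟨x, hx, _⟩ := hYd x0 hx0
    exact ⟨x, hx⟩
  have hKA : ∀ Z : Finset V, Z ⊆ s → Z.card ≤ α - 1 → ∃ y ∈ t, ∀ x ∈ Z, ¬ G.Adj x y := by
    intro Z hZ hc
    by_contra hcon
    push Not at hcon
    have := hXmin Z hZ (fun y hy => by
      obtain ⟨x, hx, hadj⟩ := hcon y hy
      exact ⟨x, hx, hadj.symm⟩)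
    omega
  have hKB : ∀ Z : Finset V, Z ⊆ t → Z.card ≤ β - 1 → ∃ x ∈ s, ∀ y ∈ Z, ¬ G.Adj x y := by
    intro Z hZ hc
    by_contra hcon
    push Not at hcon
    have := hYmin Z hZ hcon
    omega
  rw [Int.le_ediv_iff_mul_le (by norm_num), htot]
  have hcardZ : (Fintype.card V : ℤ) = s.card + t.card := by exact_mod_cast hcard.symm
  rw [hcardZ]
  rw [htot] at hodd h3
  have hne : α ≠ β := by
    intro h
    rw [h] at hodd
    rcases hodd with ⟨m, hm⟩
    omega
  rcases lt_or_gt_of_ne hne with hlt | hlt
  · -- more is needed on the second side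
    have hb := edge_bound G t s hst.symm hiso (β - 1) (α - 1) (by omega)
      (fun Z h1 h2 => by
        obtain ⟨x, hx, hh⟩ := hKB Z h1 h2
        exact ⟨x, hx, fun y hy hadj => hh y hy hadj.symm⟩)
      (fun Z h1 h2 => by
        obtain ⟨x, hx, hh⟩ := hKA Z h1 h2
        exact ⟨x, hx, fun y hy hadj => hh y hy hadj.symm⟩)
    have e1 : ((α - 1 : ℕ) : ℤ) = α - 1 := by omega
    have e2 : ((β - 1 : ℕ) : ℤ) = β - 1 := by omega
    rw [e1, e2] at hb
    have hlt' : (α : ℤ) + 1 ≤ β := by exact_mod_cast hlt
    push_cast
    nlinarith [sq_nonneg (((t.card : ℤ) - (α - 1)) - ((s.card : ℤ) - (β - 1)))]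
  · have hb := edge_bound G s t hst hiso (α - 1) (β - 1) (by omega) hKA hKB
    have e1 : ((α - 1 : ℕ) : ℤ) = α - 1 := by omega
    have e2 : ((β - 1 : ℕ) : ℤ) = β - 1 := by omega
    rw [e1, e2] at hb
    have hlt' : (β : ℤ) + 1 ≤ α := by exact_mod_cast hlt
    push_cast
    nlinarith [sq_nonneg (((s.card : ℤ) - (β - 1)) - ((t.card : ℤ) - (α - 1)))]

end Pool.Agent.Results.MP_0479e2_co.OddTotalDomination
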